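import Mathlib

set_option autoImplicit false

namespace Pool.Agent.MP_2ae84e_co

open SimpleGraph

section Dist

variable {V : Type} {ι : Type}

/-- distance from a vertex to a colour class -/
noncomputable def cd (H : SimpleGraph V) (g : V → ι) (u : V) (i : ι) : ℕ :=
  sInf ((fun v => H.dist u v) '' {v | g v = i})

theorem cd_le (H : SimpleGraph V) (g : V → ι) (u v : V) (i : ι) (hv : g v = i) :
    cd H g u i ≤ H.dist u v :=
  Nat.sInf_le ⟨v, hv, rfl⟩

theorem cd_exists (H : SimpleGraph V) (g : V → ι) (hg : Function.Surjective g) (u : V) (i : ι) :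
    ∃ v, g v = i ∧ H.dist u v = cd H g u i := by
  obtain ⟨v, hv⟩ := hg i
  have hne : ((fun v => H.dist u v) '' {v | g v = i}).Nonempty := ⟨_, v, hv, rfl⟩
  obtain ⟨w, hw, hw'⟩ := Nat.sInf_mem hne
  exact ⟨w, hw, hw'⟩

theorem cd_eq_zero {H : SimpleGraph V} (hH : H.Connected) {g : V → ι}
    (hg : Function.Surjective g) (u : V) (i : ι) : cd H g u i = 0 ↔ g u = i := by
  constructor
  · intro h
    obtain ⟨v, hv, hd⟩ := cd_exists H g hg u i
    rw [h, hH.dist_eq_zero_iff] at hd
    rw [hd]; exact hv
  · intro h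
    have := cd_le H g u u i h
    simpa using this

theorem cd_adj {H : SimpleGraph V} (hH : H.Connected) {g : V → ι}
    (hg : Function.Surjective g) {u w : V} (h : H.Adj u w) (i : ι) :
    cd H g u i ≤ cd H g w i + 1 := by
  obtain ⟨v, hv, hd⟩ := cd_exists H g hg w i
  have h1 := cd_le H g u v i hv
  have h2 : H.dist u v ≤ H.dist u w + H.dist w v := hH.dist_triangle
  have h3 : H.dist u w = 1 := dist_eq_one_iff_adj.mpr h
  omega

theorem cd_step {H : SimpleGraph V} (hH : H.Connected) {g : V → ι}
    (hg : Function.Surjective g) (u : V) (i : ι) (h : cd H g u i ≠ 0) :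
    ∃ w, H.Adj u w ∧ cd H g w i + 1 = cd H g u i := by
  obtain ⟨v, hv, hd⟩ := cd_exists H g hg u i
  obtain ⟨p, hp⟩ := hH.exists_walk_length_eq_dist u v
  cases p with
  | nil => exact absurd (by rw [← hd]; simp) h
  | cons hadj q =>
    rename_i w
    refine ⟨w, hadj, ?_⟩
    have h1 := cd_adj hH hg hadj i
    have h2 := cd_le H g w v i hv
    have h3 := dist_le q
    simp at hp
    omega

theorem le_cd {H : SimpleGraph V} (hH : H.Connected) {g : V → ι}
    (hg : Function.Surjective g) (i : ι) (ψ : V → ℕ)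
    (hψ : ∀ u w, H.Adj u w → ψ u ≤ ψ w + 1) (h0 : ∀ v, g v = i → ψ v = 0) (u : V) :
    ψ u ≤ cd H g u i := by
  have key : ∀ n, ∀ u, cd H g u i = n → ψ u ≤ n := by
    intro n
    induction n with
    | zero =>
      intro u hu
      rw [cd_eq_zero hH hg] at hu
      simp [h0 u hu]
    | succ n ih =>
      intro u hu
      obtain ⟨w, hw, hw'⟩ := cd_step hH hg u i (by omega)
      have := ih w (by omega)
      have := hψ u w hw
      omega
  exact key _ u rfl

end Dist

section Parent

variable {V : Type}

/-- the graph joining each non-root vertex to its parent -/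
def ptree (par : V → V) (r : V) : SimpleGraph V :=
  SimpleGraph.fromRel (fun u v => u ≠ r ∧ par u = v)

theorem ptree_adj (par : V → V) (r u v : V) :
    (ptree par r).Adj u v ↔ u ≠ v ∧ ((u ≠ r ∧ par u = v) ∨ (v ≠ r ∧ par v = u)) := by
  simp [ptree, SimpleGraph.fromRel_adj]

variable {par : V → V} {r : V} {dep : V → ℕ}

theorem ptree_adj_par (hdep : ∀ v, v ≠ r → dep v = dep (par v) + 1) {v : V} (hv : v ≠ r) :
    (ptree par r).Adj v (par v) := by
  rw [ptree_adj]
  refine ⟨?_, Or.inl ⟨hv, rfl⟩⟩
  intro h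
  have := hdep v hv
  rw [← h] at this
  omega

theorem ptree_connected (hdep : ∀ v, v ≠ r → dep v = dep (par v) + 1) :
    (ptree par r).Connected := by
  have key : ∀ n, ∀ v, dep v = n → (ptree par r).Reachable v r := by
    intro n
    induction n with
    | zero =>
      intro v hv
      by_cases h : v = r
      · rw [h]
      · have := hdep v h; omega
    | succ n ih =>
      intro v hv
      by_cases h : v = r
      · rw [h]
      · have h1 := hdep v h
        exact (ptree_adj_par hdep h).reachable.trans (ih _ (by omega))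
  have : Nonempty V := ⟨r⟩
  exact ⟨fun u v => (key _ u rfl).trans (key _ v rfl).symm⟩

theorem ptree_card [Finite V] (hdep : ∀ v, v ≠ r → dep v = dep (par v) + 1) :
    Nat.card (ptree par r).edgeSet + 1 = Nat.card V := by
  classical
  let F : {v : V // v ≠ r} → (ptree par r).edgeSet :=
    fun v => ⟨s(v.1, par v.1), ptree_adj_par hdep v.2⟩
  have hF : Function.Bijective F := by
    constructor
    · intro v w h
      have h' : s(v.1, par v.1) = s(w.1, par w.1) := congrArg Subtype.val h
      rw [Sym2.eq_iff] at h'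
      rcases h' with h' | h'
      · exact Subtype.ext h'.1
      · have h1 := hdep v.1 v.2
        have h2 := hdep w.1 w.2
        rw [h'.2] at h1
        rw [← h'.1] at h2
        omega
    · rintro ⟨e, he⟩
      induction e using Sym2.ind with
      | _ u v =>
        have he' : (ptree par r).Adj u v := he
        rw [ptree_adj] at he'
        rcases he'.2 with h | h
        · exact ⟨⟨u, h.1⟩, Subtype.ext (by simp [F, h.2])⟩
        · exact ⟨⟨v, h.1⟩, Subtype.ext (by simp [F, h.2])⟩
  rw [← Nat.card_eq_of_bijective F hF]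
  have := Fintype.ofFinite V
  simp only [Nat.card_eq_fintype_card, ne_eq, Fintype.card_subtype_compl, Fintype.card_unique]
  have : 0 < Fintype.card V := Fintype.card_pos_iff.mpr ⟨r⟩
  omega

theorem ptree_isTree [Finite V] (hdep : ∀ v, v ≠ r → dep v = dep (par v) + 1) :
    (ptree par r).IsTree := by
  rw [isTree_iff_connected_and_card]
  exact ⟨ptree_connected hdep, ptree_card hdep⟩

theorem ptree_lip (ψ : V → ℕ)
    (h : ∀ v, v ≠ r → ψ v ≤ ψ (par v) + 1 ∧ ψ (par v) ≤ ψ v + 1) :
    ∀ u w, (ptree par r).Adj u w → ψ u ≤ ψ w + 1 := by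
  intro u w huw
  rw [ptree_adj] at huw
  rcases huw.2 with h1 | h1
  · rw [← h1.2]; exact (h u h1.1).1
  · rw [← h1.2]; exact (h w h1.1).2

theorem card_sup_edge [Finite V] (T : SimpleGraph V) (x y : V) (hxy : x ≠ y) (hn : ¬ T.Adj x y) :
    Nat.card (T ⊔ SimpleGraph.edge x y).edgeSet = Nat.card T.edgeSet + 1 := by
  rw [edgeSet_sup, edgeSet_edge_of_ne hxy, Set.union_singleton]
  rw [Nat.card_coe_set_eq, Nat.card_coe_set_eq]
  exact Set.ncard_insert_of_notMem (by simpa using hn) (Set.toFinite _)

end Parent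

end Pool.Agent.MP_2ae84e_co
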