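import Mathlib
import Pool.Agent.MP_2ae84e_co.Basic

set_option autoImplicit false

namespace Pool.Agent.MP_2ae84e_co

open SimpleGraph

/-- vertices: legs of a spider (one leg for each 0-1 word), a path, pendant leaves -/
abbrev Vx (m : ℕ) : Type := ((Fin m → Bool) × Fin m) ⊕ Fin (m + 1) ⊕ Fin (m + 1)

def leg {m : ℕ} (e : Fin m → Bool) (i : Fin m) : Vx m := Sum.inl (e, i)
def pth {m : ℕ} (s : Fin (m + 1)) : Vx m := Sum.inr (Sum.inl s)
def leaf {m : ℕ} (c : Fin (m + 1)) : Vx m := Sum.inr (Sum.inr c)

def par {m : ℕ} : Vx m → Vx m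
  | Sum.inl (e, i) => if i.val = 0 then pth 0 else leg e ⟨i.val - 1, by omega⟩
  | Sum.inr (Sum.inl s) => if h : s.val < m then pth ⟨s.val + 1, by omega⟩ else leaf 0
  | Sum.inr (Sum.inr _) => pth (Fin.last m)

def dep {m : ℕ} : Vx m → ℕ
  | Sum.inl (_, i) => i.val + m + 2
  | Sum.inr (Sum.inl s) => m - s.val + 1
  | Sum.inr (Sum.inr c) => if c.val = 0 then 0 else 2

def col {m : ℕ} : Vx m → Fin (m + 2)
  | Sum.inl (e, i) => if e i = true then ⟨i.val + 2, by omega⟩ else 0
  | Sum.inr (Sum.inl _) => 0
  | Sum.inr (Sum.inr c) => ⟨c.val + 1, by omega⟩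

def pot {m : ℕ} (j : Fin m) : Vx m → ℕ
  | Sum.inl (e, i) => if e j = true then (i.val - j.val) + (j.val - i.val) else i.val + j.val + 2
  | Sum.inr (Sum.inl s) => min (s.val + j.val + 1) (m - s.val + 1)
  | Sum.inr (Sum.inr _) => 0

theorem dep_par {m : ℕ} : ∀ v : Vx m, v ≠ leaf 0 → dep v = dep (par v) + 1 := by
  rintro (⟨e, i⟩ | s | c) hv
  · by_cases h : i.val = 0
    · simp [par, dep, h, pth]
    · simp [par, dep, h, leg]; omega
  · by_cases h : s.val < m
    · simp [par, dep, h, pth]; omega
    · have := s.isLt
      simp [par, dep, h, leaf]; omega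
  · have : c.val ≠ 0 := by
      intro h; apply hv; simp only [leaf]; congr; exact Fin.ext h
    simp only [par, dep, pth, if_neg this]
    simp

def T (m : ℕ) : SimpleGraph (Vx m) := ptree par (leaf 0)

def G (m : ℕ) : SimpleGraph (Vx m) := T m ⊔ SimpleGraph.edge (pth 0) (pth (Fin.last m))

theorem T_isTree (m : ℕ) : (T m).IsTree := ptree_isTree dep_par

theorem T_conn (m : ℕ) : (T m).Connected := (T_isTree m).connected

theorem T_le_G (m : ℕ) : T m ≤ G m := le_sup_left

theorem G_conn (m : ℕ) : (G m).Connected := (T_conn m).mono (T_le_G m)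

theorem G_card {m : ℕ} (hm : 2 ≤ m) : Nat.card (G m).edgeSet = Nat.card (Vx m) := by
  have h1 : Nat.card (T m).edgeSet + 1 = Nat.card (Vx m) := ptree_card dep_par
  rw [← h1]
  apply card_sup_edge
  · simp only [pth, ne_eq, Sum.inr.injEq, Sum.inl.injEq, Fin.ext_iff, Fin.val_zero, Fin.val_last]
    omega
  · intro h
    have h0 : (0 : ℕ) < m := by omega
    rw [T, ptree_adj] at h
    rcases h.2 with h | h
    · have := h.2
      simp [par, pth, h0, Fin.ext_iff] at this
      omega
    · have := h.2
      simp [par, pth, leaf] at this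

theorem col_surj (m : ℕ) : Function.Surjective (col : Vx m → Fin (m + 2)) := by
  intro i
  by_cases h : i.val = 0
  · exact ⟨pth 0, by simp only [pth, col]; exact Fin.ext h.symm⟩
  · exact ⟨leaf ⟨i.val - 1, by omega⟩, by simp only [leaf, col]; apply Fin.ext; simp; omega⟩

theorem col_eq_one {m : ℕ} (v : Vx m) (h : col v = 1) : v = leaf 0 := by
  rcases v with ⟨e, i⟩ | s | c
  · by_cases he : e i = true
    · simp [col, he, Fin.ext_iff] at h
    · simp [col, he] at h
  · simp [col] at h
  · simp only [col, Fin.ext_iff] at h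
    simp only [leaf]
    congr
    apply Fin.ext
    simpa using h

theorem cd_marker {m : ℕ} (u : Vx m) : cd (T m) col u 1 = dep u := by
  apply le_antisymm
  · have key : ∀ n, ∀ u : Vx m, dep u = n → cd (T m) col u 1 ≤ n := by
      intro n
      induction n with
      | zero =>
        intro u hu
        by_cases h : u = leaf 0
        · rw [Nat.le_zero, cd_eq_zero (T_conn m) (col_surj m), h]
          simp [col, leaf]
        · have := dep_par u h; omega
      | succ n ih =>
        intro u hu
        by_cases h : u = leaf 0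
        · rw [h] at hu; simp [dep, leaf] at hu
        · have h1 := dep_par u h
          have h2 := ih (par u) (by omega)
          have h3 := cd_adj (T_conn m) (col_surj m) (ptree_adj_par dep_par h) 1
          omega
    exact key _ u rfl
  · apply le_cd (T_conn m) (col_surj m) 1 dep
    · apply ptree_lip
      intro v hv
      have := dep_par v hv
      omega
    · intro v hv
      rw [col_eq_one v hv]
      simp [dep, leaf]

theorem pot_le {m : ℕ} (j : Fin m) (u : Vx m) :
    pot j u ≤ cd (T m) col u ⟨j.val + 2, by omega⟩ := by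
  apply le_cd (T_conn m) (col_surj m) _ (pot j)
  · apply ptree_lip
    have hj := j.isLt
    rintro (⟨e, i⟩ | s | c) _
    · by_cases h : i.val = 0
      · by_cases he : e j = true
        · simp [par, pot, h, pth, he]; omega
        · simp [par, pot, h, pth, he]
      · by_cases he : e j = true
        · simp [par, pot, h, leg, he]; omega
        · simp [par, pot, h, leg, he]; omega
    · have := s.isLt
      by_cases h : s.val < m
      · simp only [par, pot, h, pth, dif_pos]; omega
      · simp only [par, pot, h, leaf, dif_neg, not_false_eq_true]; omega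
    · simp [par, pot, pth]
  · rintro (⟨e, i⟩ | s | c) hv
    · by_cases he : e i = true
      · simp only [col, he, if_true, Fin.ext_iff] at hv
        have : i = j := Fin.ext (by omega)
        subst this
        simp [pot, he]
      · simp [col, he, Fin.ext_iff] at hv
    · simp [col, Fin.ext_iff] at hv
    · simp [pot]

theorem T_adj_leg {m : ℕ} (e : Fin m → Bool) (a : ℕ) (h : a + 1 < m) :
    (T m).Adj (leg e ⟨a + 1, h⟩) (leg e ⟨a, by omega⟩) := by
  have := ptree_adj_par (dep_par (m := m)) (v := leg e ⟨a + 1, h⟩) (by simp [leg, leaf])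
  simpa [par, leg, T] using this

theorem T_adj_leg0 {m : ℕ} (e : Fin m → Bool) (h : 0 < m) :
    (T m).Adj (leg e ⟨0, h⟩) (pth 0) := by
  have := ptree_adj_par (dep_par (m := m)) (v := leg e ⟨0, h⟩) (by simp [leg, leaf])
  simpa [par, leg, T] using this

theorem cd_leg_le {m : ℕ} (e : Fin m → Bool) (c : Fin (m + 2)) (a d : ℕ) (h : a + d < m) :
    cd (T m) col (leg e ⟨a + d, h⟩) c ≤ cd (T m) col (leg e ⟨a, by omega⟩) c + d ∧
    cd (T m) col (leg e ⟨a, by omega⟩) c ≤ cd (T m) col (leg e ⟨a + d, h⟩) c + d := by
  induction d with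
  | zero => simp
  | succ d ih =>
    have h1 := ih (by omega)
    have h2 := cd_adj (T_conn m) (col_surj m) (T_adj_leg e (a + d) h) c
    have h3 := cd_adj (T_conn m) (col_surj m) (T_adj_leg e (a + d) h).symm c
    constructor
    · have := h1.1
      change cd (T m) col (leg e ⟨a + d + 1, h⟩) c ≤ _
      omega
    · have := h1.2
      change _ ≤ cd (T m) col (leg e ⟨a + d + 1, h⟩) c + _
      omega

theorem cd_leg_true {m : ℕ} (e : Fin m → Bool) (i j : Fin m) (he : e j = true) :
    cd (T m) col (leg e i) ⟨j.val + 2, by omega⟩ ≤ i.val + j.val := by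
  have h0 : cd (T m) col (leg e j) ⟨j.val + 2, by omega⟩ = 0 := by
    rw [cd_eq_zero (T_conn m) (col_surj m)]
    simp [col, leg, he]
  obtain ⟨i, hi⟩ := i
  obtain ⟨j, hj⟩ := j
  rcases le_total i j with h | h
  · obtain ⟨d, rfl⟩ := Nat.exists_eq_add_of_le h
    have := (cd_leg_le e ⟨i + d + 2, by omega⟩ i d hj).2
    simp only at h0 this ⊢
    omega
  · obtain ⟨d, rfl⟩ := Nat.exists_eq_add_of_le h
    have := (cd_leg_le e ⟨j + 2, by omega⟩ j d hi).1
    simp only at h0 this ⊢
    omega

theorem T_resolving (m : ℕ) (u w : Vx m)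
    (h : ∀ i : Fin (m + 2), cd (T m) col u i = cd (T m) col w i) : u = w := by
  have hdep : dep u = dep w := by rw [← cd_marker, ← cd_marker, h]
  have hcol : col u = col w := by
    have h1 := (cd_eq_zero (T_conn m) (col_surj m) w (col w)).mpr rfl
    rw [← h, cd_eq_zero (T_conn m) (col_surj m)] at h1
    exact h1
  rcases u with ⟨e, i⟩ | s | c <;> rcases w with ⟨e', i'⟩ | s' | c'
  · simp only [dep] at hdep
    have hi : i = i' := Fin.ext (by omega)
    subst hi
    have : e = e' := by
      funext j
      have hj := h ⟨j.val + 2, by omega⟩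
      by_cases h1 : e j = true <;> by_cases h2 : e' j = true
      · rw [h1, h2]
      · have a1 := cd_leg_true e i j h1
        have a2 := pot_le j (leg e' i)
        simp only [leg, pot, h2] at a1 a2
        rw [hj] at a1
        simp at a2
        omega
      · have a1 := cd_leg_true e' i j h2
        have a2 := pot_le j (leg e i)
        simp only [leg, pot, h1] at a1 a2
        rw [← hj] at a1
        simp at a2
        omega
      · simp only [Bool.not_eq_true] at h1 h2
        rw [h1, h2]
    rw [this]
  · simp only [dep] at hdep; omega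
  · have := i.isLt
    simp only [dep] at hdep; split_ifs at hdep <;> omega
  · simp only [dep] at hdep; omega
  · have := s.isLt
    have := s'.isLt
    simp only [dep] at hdep
    have : s = s' := Fin.ext (by omega)
    rw [this]
  · simp only [col, Fin.ext_iff, Fin.val_zero] at hcol; omega
  · have := i'.isLt
    simp only [dep] at hdep; split_ifs at hdep <;> omega
  · simp only [col, Fin.ext_iff, Fin.val_zero] at hcol; omega
  · simp only [col, Fin.ext_iff] at hcol
    have : c = c' := Fin.ext (by omega)
    rw [this]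

end Pool.Agent.MP_2ae84e_co
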