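import Mathlib

set_option autoImplicit false

namespace Pool.Agent.MP_2ae84e_co

/-- the distance from the vertex u to the set S: the least distance from u to a member of S -/
noncomputable def setDist {V : Type} (G : SimpleGraph V) (u : V) (S : Set V) : ℕ :=
  sInf ((fun v => G.dist u v) '' S)

/-- f is an ordered partition into k nonempty classes that is resolving -/
def IsResolvingPartition {V : Type} (G : SimpleGraph V) (k : ℕ) (f : V → Fin k) : Prop :=
  Function.Surjective f ∧
    ∀ u w : V, (∀ i : Fin k, setDist G u {v | f v = i} = setDist G w {v | f v = i}) → u = w

/-- the partition dimension: the least number of classes of a resolving partition -/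
noncomputable def partitionDim {V : Type} (G : SimpleGraph V) : ℕ :=
  sInf {k : ℕ | ∃ f : V → Fin k, IsResolvingPartition G k f}

end Pool.Agent.MP_2ae84e_co
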