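import Mathlib
import Pool.Agent.MP_2ae84e_co.Constr

set_option autoImplicit false

namespace Pool.Agent.MP_2ae84e_co

open SimpleGraph

theorem G_adj {m : ℕ} {u v : Vx m} (h : (G m).Adj u v) :
    (u ≠ leaf 0 ∧ par u = v) ∨ (v ≠ leaf 0 ∧ par v = u) ∨
      (u = pth 0 ∧ v = pth (Fin.last m)) ∨ (u = pth (Fin.last m) ∧ v = pth 0) := by
  rw [G, sup_adj, T, ptree_adj, edge_adj] at h
  tauto

theorem nbr_leaf {m : ℕ} {c : Fin (m + 1)} {v : Vx m} (h : (G m).Adj (leaf c) v) :
    v = pth (Fin.last m) := by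
  rcases G_adj h with h | h | h | h
  · rw [← h.2]; rfl
  · rcases v with ⟨e, i⟩ | s | c'
    · have := h.2
      simp only [par, leaf, pth, leg] at this
      split_ifs at this <;> simp at this
    · have := h.2
      have hs := s.isLt
      simp only [par, leaf, pth] at this
      split_ifs at this with h1
      · simp at this
      · simp only [pth]
        congr
        apply Fin.ext
        simp
        omega
    · have := h.2
      simp [par, leaf, pth] at this
  · simp [leaf, pth] at h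
  · simp [leaf, pth] at h

theorem nbr_leg {m : ℕ} {e : Fin m → Bool} {i : Fin m} {v : Vx m} (h : (G m).Adj (leg e i) v) :
    v = par (leg e i) ∨ ∃ h : i.val + 1 < m, v = leg e ⟨i.val + 1, h⟩ := by
  rcases G_adj h with h | h | h | h
  · exact Or.inl h.2.symm
  · right
    rcases v with ⟨e', i'⟩ | s | c'
    · have := h.2
      have hi := i'.isLt
      simp only [par, pth, leg] at this
      split_ifs at this with h1
      · simp only [Sum.inl.injEq, Prod.mk.injEq, Fin.ext_iff] at this
        refine ⟨by omega, ?_⟩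
        simp only [leg, Sum.inl.injEq, Prod.mk.injEq, Fin.ext_iff]
        exact ⟨this.1, by omega⟩
    · have := h.2
      simp only [par, leaf, pth, leg] at this
      split_ifs at this <;> simp at this
    · have := h.2
      simp [par, leg, pth] at this
  · simp [leg, pth] at h
  · simp [leg, pth] at h

theorem G_adj_leaf {m : ℕ} (c : Fin (m + 1)) : (G m).Adj (pth (Fin.last m)) (leaf c) := by
  apply T_le_G
  by_cases hc : c = 0
  · have := ptree_adj_par (dep_par (m := m)) (v := pth (Fin.last m)) (by simp [pth, leaf])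
    simpa [par, pth, T, hc] using this
  · have := ptree_adj_par (dep_par (m := m)) (v := leaf c) (by simpa [leaf] using hc)
    exact this.symm

theorem G_adj_xy {m : ℕ} (hm : 0 < m) : (G m).Adj (pth 0) (pth (Fin.last m)) := by
  rw [G, sup_adj, edge_adj]
  right
  refine ⟨Or.inl ⟨rfl, rfl⟩, ?_⟩
  simp only [pth, ne_eq, Sum.inr.injEq, Sum.inl.injEq, Fin.ext_iff, Fin.val_zero, Fin.val_last]
  omega

section

variable {m : ℕ} {ι : Type} {g : Vx m → ι}

theorem leaf_inj (hg : Function.Surjective g)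
    (hres : ∀ u w : Vx m, (∀ i, cd (G m) g u i = cd (G m) g w i) → u = w) :
    Function.Injective (fun c : Fin (m + 1) => g (leaf c)) := by
  intro c c' h
  simp only at h
  have : (leaf c : Vx m) = leaf c' := by
    apply hres
    intro i
    by_cases hi : g (leaf c) = i
    · rw [(cd_eq_zero (G_conn m) hg _ _).mpr hi, (cd_eq_zero (G_conn m) hg _ _).mpr (h ▸ hi)]
    · have hi' : ¬ g (leaf c') = i := h ▸ hi
      rw [← cd_eq_zero (G_conn m) hg] at hi hi'
      obtain ⟨w, hw, hw2⟩ := cd_step (G_conn m) hg _ _ hi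
      obtain ⟨w', hw', hw2'⟩ := cd_step (G_conn m) hg _ _ hi'
      rw [nbr_leaf hw] at hw2
      rw [nbr_leaf hw'] at hw2'
      omega
  simpa [leaf] using this

theorem near_le (hm : 0 < m) (hg : Function.Surjective g) (c : Fin (m + 1)) :
    cd (G m) g (pth 0) (g (leaf c)) ≤ 2 := by
  have h0 := (cd_eq_zero (G_conn m) hg (leaf c) (g (leaf c))).mpr rfl
  have h1 := cd_adj (G_conn m) hg (G_adj_leaf c) (g (leaf c))
  have h2 := cd_adj (G_conn m) hg (G_adj_xy hm) (g (leaf c))
  omega

theorem near_leg_le (hm : 3 ≤ m) (hg : Function.Surjective g) (i : ι)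
    (hi : cd (G m) g (pth 0) i ≤ 2) (e e' : Fin m → Bool)
    (h0 : g (leg e ⟨0, by omega⟩) = g (leg e' ⟨0, by omega⟩))
    (h1 : g (leg e ⟨1, by omega⟩) = g (leg e' ⟨1, by omega⟩))
    (h2 : g (leg e ⟨2, by omega⟩) = g (leg e' ⟨2, by omega⟩)) :
    cd (G m) g (leg e ⟨0, by omega⟩) i ≤ cd (G m) g (leg e' ⟨0, by omega⟩) i := by
  have hc := G_conn m
  have ax := cd_adj hc hg (T_le_G m (T_adj_leg0 e (by omega))) i
  have a1 := cd_adj hc hg (T_le_G m (T_adj_leg e 0 (by omega)).symm) i
  have a2 := cd_adj hc hg (T_le_G m (T_adj_leg e 1 (by omega)).symm) i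
  have z0 : cd (G m) g (leg e' ⟨0, by omega⟩) i = 0 → cd (G m) g (leg e ⟨0, by omega⟩) i = 0 := by
    rw [cd_eq_zero hc hg, cd_eq_zero hc hg, h0]; exact id
  have z1 : cd (G m) g (leg e' ⟨1, by omega⟩) i = 0 → cd (G m) g (leg e ⟨1, by omega⟩) i = 0 := by
    rw [cd_eq_zero hc hg, cd_eq_zero hc hg, h1]; exact id
  have z2 : cd (G m) g (leg e' ⟨2, by omega⟩) i = 0 → cd (G m) g (leg e ⟨2, by omega⟩) i = 0 := by
    rw [cd_eq_zero hc hg, cd_eq_zero hc hg, h2]; exact id
  simp only [Nat.zero_add, Nat.reduceAdd] at a1 a2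
  by_cases d0 : cd (G m) g (leg e' ⟨0, by omega⟩) i = 0
  · rw [z0 d0]; exact Nat.zero_le _
  obtain ⟨w, hw, hw2⟩ := cd_step hc hg _ _ d0
  rcases nbr_leg hw with rfl | ⟨_, rfl⟩
  · simp only [par, leg, if_true] at hw2
    simp only [leg] at ax ⊢
    omega
  simp only [Nat.zero_add] at hw2
  by_cases d1 : cd (G m) g (leg e' ⟨1, by omega⟩) i = 0
  · have := z1 d1
    omega
  obtain ⟨w', hw', hw2'⟩ := cd_step hc hg _ _ d1
  rcases nbr_leg hw' with rfl | ⟨_, rfl⟩
  · simp only [par, leg, one_ne_zero, if_false, Nat.sub_self] at hw2'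
    simp only [leg] at hw2
    omega
  simp only [Nat.reduceAdd] at hw2'
  by_cases d2 : cd (G m) g (leg e' ⟨2, by omega⟩) i = 0
  · have := z2 d2
    omega
  · omega

end

theorem G_lower (m n c : ℕ) (hm : 3 ≤ m) (hn : n ≤ m + 2 + c)
    (hbig : (m + 2 + c) ^ 3 * 3 ^ (c + 1) < 2 ^ m)
    (g : Vx m → Fin n) (hg : Function.Surjective g) :
    ¬ ∀ u w : Vx m, (∀ i, cd (G m) g u i = cd (G m) g w i) → u = w := by
  classical
  intro hres
  have hc := G_conn m
  have hinj := leaf_inj hg hres
  let Far := {i : Fin n // ¬ i ∈ Set.range (fun c : Fin (m + 1) => g (leaf c))}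
  have hFar : Fintype.card Far ≤ c + 1 := by
    have h1 : Fintype.card {i : Fin n // i ∈ Set.range (fun c : Fin (m + 1) => g (leaf c))}
        = m + 1 := by
      have := Set.card_range_of_injective hinj
      rw [Fintype.card_fin] at this
      convert this
    have h2 := Fintype.card_subtype_compl
      (fun i : Fin n => i ∈ Set.range (fun c : Fin (m + 1) => g (leaf c)))
    simp only [Far]
    rw [h2, h1]
    simp
    omega
  let Φ : (Fin m → Bool) → (Fin n × Fin n × Fin n) × (Far → Fin 3) := fun e =>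
    ((g (leg e ⟨0, by omega⟩), g (leg e ⟨1, by omega⟩), g (leg e ⟨2, by omega⟩)),
      fun i => ⟨cd (G m) g (leg e ⟨0, by omega⟩) i.1 % 3, Nat.mod_lt _ (by norm_num)⟩)
  have hcard : Fintype.card ((Fin n × Fin n × Fin n) × (Far → Fin 3)) <
      Fintype.card (Fin m → Bool) := by
    simp only [Fintype.card_prod, Fintype.card_fin, Fintype.card_fun, Fintype.card_bool]
    calc n * (n * n) * 3 ^ Fintype.card Far = n ^ 3 * 3 ^ Fintype.card Far := by ring
      _ ≤ (m + 2 + c) ^ 3 * 3 ^ (c + 1) := by gcongr; norm_num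
      _ < 2 ^ m := hbig
  obtain ⟨e, e', hne, heq⟩ := Fintype.exists_ne_map_eq_of_card_lt Φ hcard
  simp only [Φ, Prod.mk.injEq] at heq
  obtain ⟨⟨h0, h1, h2⟩, hfar⟩ := heq
  have : (leg e ⟨0, by omega⟩ : Vx m) = leg e' ⟨0, by omega⟩ := by
    apply hres
    intro i
    by_cases hi : i ∈ Set.range (fun c : Fin (m + 1) => g (leaf c))
    · obtain ⟨c, rfl⟩ := hi
      have hn := near_le (by omega) hg c
      exact le_antisymm (near_leg_le hm hg _ hn e e' h0 h1 h2)
        (near_leg_le hm hg _ hn e' e h0.symm h1.symm h2.symm)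
    · have h3 := congrFun hfar ⟨i, hi⟩
      simp only [Fin.mk.injEq] at h3
      have a1 := cd_adj hc hg (T_le_G m (T_adj_leg0 e (by omega))) i
      have a2 := cd_adj hc hg (T_le_G m (T_adj_leg0 e (by omega))).symm i
      have a3 := cd_adj hc hg (T_le_G m (T_adj_leg0 e' (by omega))) i
      have a4 := cd_adj hc hg (T_le_G m (T_adj_leg0 e' (by omega))).symm i
      omega
  apply hne
  simpa [leg] using this

theorem exists_big (c : ℕ) : ∃ m, 3 ≤ m ∧ (m + 2 + c) ^ 3 * 3 ^ (c + 1) < 2 ^ m := by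
  have h := tendsto_pow_const_div_const_pow_of_one_lt 3 (r := 2) (by norm_num)
  have hpos : (0 : ℝ) < 1 / (3 ^ (c + 1) * 2 ^ (2 + c)) := by positivity
  have h2 := (h.eventually (gt_mem_nhds hpos)).and (Filter.eventually_ge_atTop (5 + c))
  obtain ⟨N, hN1, hN2⟩ := h2.exists
  refine ⟨N - 2 - c, by omega, ?_⟩
  have e1 : N - 2 - c + 2 + c = N := by omega
  rw [e1]
  have e2 : (2 : ℝ) ^ N = 2 ^ (N - 2 - c) * 2 ^ (2 + c) := by
    rw [← pow_add]; congr 1; omega
  rw [div_lt_div_iff₀ (by positivity) (by positivity), e2] at hN1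
  have : ((N : ℝ) ^ 3 * 3 ^ (c + 1)) < 2 ^ (N - 2 - c) := by
    have hp : (0 : ℝ) < 2 ^ (2 + c) := by positivity
    apply lt_of_mul_lt_mul_right _ hp.le
    linarith
  exact_mod_cast this

theorem unbounded (c : ℕ) :
    ∃ (V : Type) (_ : Fintype V) (G T : SimpleGraph V) (k : ℕ),
      G.Connected ∧ Nat.card G.edgeSet = Nat.card V ∧ T ≤ G ∧ T.IsTree ∧
      (∃ f : V → Fin k, Function.Surjective f ∧
          ∀ u w : V,
            (∀ i : Fin k,
              sInf ((fun v => T.dist u v) '' {v | f v = i}) =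
              sInf ((fun v => T.dist w v) '' {v | f v = i})) → u = w) ∧
      ∀ m : ℕ, m ≤ k + c →
          ¬ ∃ g : V → Fin m, Function.Surjective g ∧
            ∀ u w : V,
              (∀ i : Fin m,
                sInf ((fun v => G.dist u v) '' {v | g v = i}) =
                sInf ((fun v => G.dist w v) '' {v | g v = i})) → u = w := by
  obtain ⟨m, hm, hbig⟩ := exists_big c
  refine ⟨Vx m, inferInstance, G m, T m, m + 2, G_conn m, G_card (by omega), T_le_G m, T_isTree m,
    ⟨col, col_surj m, T_resolving m⟩, ?_⟩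
  rintro n hn ⟨g, hg, hres⟩
  exact G_lower m n c hm hn hbig g hg hres

end Pool.Agent.MP_2ae84e_co
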